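import Mathlib

set_option autoImplicit false

namespace Pool.Agent.J6H51.LocDim

open Finset

theorem bondy {α β : Type*} [DecidableEq β] (X : Finset α) (f : α → β → ℕ) (S : Finset β)
    (hX : X.Nonempty)
    (h : ∀ b ∈ S, ∃ x ∈ X, ∃ x' ∈ X, f x b ≠ f x' b ∧ ∀ b' ∈ S, b' ≠ b → f x b' = f x' b') :
    S.card + 1 ≤ X.card := by
  classical
  have key : ∀ T : Finset β, T ⊆ S →
      T.card + 1 ≤ (X.image (fun x => (fun b : β => if b ∈ T then f x b else 0))).card := by
    intro T
    induction T using Finset.induction_on with
    | empty =>
      intro _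
      have h1 : (X.image (fun x => (fun b : β => if b ∈ (∅ : Finset β) then f x b else 0))).Nonempty :=
        hX.image _
      have := h1.card_pos
      simpa using this
    | insert b T hb ih =>
      intro hT
      have ih' := ih (fun a ha => hT (Finset.mem_insert_of_mem ha))
      rw [Finset.card_insert_of_notMem hb]
      by_contra hlt
      push Not at hlt
      set g1 : α → β → ℕ := fun x => (fun c : β => if c ∈ insert b T then f x c else 0) with hg1
      set g0 : α → β → ℕ := fun x => (fun c : β => if c ∈ T then f x c else 0) with hg0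
      let res : (β → ℕ) → (β → ℕ) := fun k c => if c ∈ T then k c else 0
      have hres : ∀ x, res (g1 x) = g0 x := by
        intro x
        funext c
        simp only [res, hg1, hg0, Finset.mem_insert]
        by_cases hc : c ∈ T
        · simp [hc]
        · simp [hc]
      have himg : X.image g0 = (X.image g1).image res := by
        rw [Finset.image_image]
        apply Finset.image_congr
        intro x _
        exact (hres x).symm
      have hle : (X.image g0).card ≤ (X.image g1).card := by
        rw [himg]; exact Finset.card_image_le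
      have heq : ((X.image g1).image res).card = (X.image g1).card := by rw [← himg]; omega
      have hinj := Finset.card_image_iff.mp heq
      obtain ⟨x, hx, x', hx', hne, hag⟩ := h b (hT (Finset.mem_insert_self b T))
      have e : g1 x = g1 x' := by
        apply hinj
        · exact Finset.mem_coe.2 (Finset.mem_image_of_mem _ hx)
        · exact Finset.mem_coe.2 (Finset.mem_image_of_mem _ hx')
        · rw [hres, hres]
          funext c
          simp only [hg0]
          by_cases hc : c ∈ T
          · rw [if_pos hc, if_pos hc]
            exact hag c (hT (Finset.mem_insert_of_mem hc)) (fun h => hb (h ▸ hc))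
          · rw [if_neg hc, if_neg hc]
      have e2 := congrFun e b
      simp only [hg1, Finset.mem_insert_self, if_true] at e2
      exact hne e2
  exact (key S (Finset.Subset.refl S)).trans Finset.card_image_le

/-- local resolving set -/
def Good {V : Type} (G : SimpleGraph V) (W : Finset V) : Prop :=
  ∀ u v, G.Adj u v → ∃ w ∈ W, G.dist u w ≠ G.dist v w

/-- isolated `k`-cliques of the graph induced on `W` -/
def Iso {V : Type} (G : SimpleGraph V) (k : ℕ) (W C : Finset V) : Prop :=
  C ⊆ W ∧ C.card = k ∧ ∀ c ∈ C, ∀ w ∈ W, w ≠ c → (G.Adj c w ↔ w ∈ C)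

theorem exists_opt {V : Type} [Fintype V] (G : SimpleGraph V) (hc : G.Connected) (k : ℕ) :
    ∃ W : Finset V, Good G W ∧ (∀ W', Good G W' → W.card ≤ W'.card) ∧
      ∀ W', Good G W' → W'.card = W.card →
        {C | Iso G k W C}.ncard ≤ {C | Iso G k W' C}.ncard := by
  classical
  have huniv : Good G (Finset.univ : Finset V) := by
    intro u v huv
    refine ⟨u, Finset.mem_univ u, ?_⟩
    rw [SimpleGraph.dist_self]
    intro h
    have := (hc.dist_eq_zero_iff).1 h.symm
    exact huv.ne this.symm
  obtain ⟨W0, hW0, hmin0⟩ := Finset.exists_min_image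
    ((Finset.univ : Finset (Finset V)).filter (fun W => Good G W)) Finset.card
    ⟨Finset.univ, by simp [huniv]⟩
  obtain ⟨W, hW, hmin⟩ := Finset.exists_min_image
    ((Finset.univ : Finset (Finset V)).filter (fun W => Good G W ∧ W.card = W0.card))
    (fun W => {C | Iso G k W C}.ncard) ⟨W0, by simpa using hW0⟩
  simp only [Finset.mem_filter, Finset.mem_univ, true_and] at hW0 hmin0 hW hmin
  refine ⟨W, hW.1, ?_, ?_⟩
  · intro W' hW'
    rw [hW.2]
    exact hmin0 W' hW'
  · intro W' hW' hcard
    exact hmin W' ⟨hW', hcard.trans hW.2⟩

/-- the first step on a shortest path -/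
theorem exists_next {V : Type} (G : SimpleGraph V) (hc : G.Connected) (w w0 : V) (h : w ≠ w0) :
    ∃ z, G.Adj w z ∧ G.dist z w0 < G.dist w w0 := by
  obtain ⟨p, hp⟩ := hc.exists_walk_length_eq_dist w w0
  cases p with
  | nil => exact absurd rfl h
  | cons hadj q =>
    refine ⟨_, hadj, ?_⟩
    have h1 := SimpleGraph.dist_le q
    rw [SimpleGraph.Walk.length_cons] at hp
    omega

end Pool.Agent.J6H51.LocDim
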