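import Pool.Agent.J6H51.LocDim.Main

set_option autoImplicit false

namespace Pool.Agent.J6H51.LocDim

open Finset

theorem bound {V : Type} [Fintype V] [DecidableEq V] (G : SimpleGraph V) (hc : G.Connected)
    (m : ℕ) (hm : 1 ≤ m) (hcf : G.CliqueFree (m + 3)) (hn : m + 3 ≤ Fintype.card V) :
    ∃ W : Finset V, Good G W ∧ W.card ≤ m * (Fintype.card V - W.card) := by
  classical
  obtain ⟨W, hgood, hmin, hiso⟩ := exists_opt G hc (m + 1)
  refine ⟨W, hgood, ?_⟩
  have hUcard : (Wᶜ).card = Fintype.card V - W.card := Finset.card_compl W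
  rw [← hUcard]
  set U : Finset V := Wᶜ with hU
  have hmemU : ∀ x, x ∈ U ↔ x ∉ W := by intro x; rw [hU, Finset.mem_compl]
  -- pure type (a) vertices and type (b) vertices
  set A : Finset V := W.filter (fun w => ¬ TypeB G W w) with hA
  set B : Finset V := W.filter (fun w => TypeB G W w) with hB
  have hAB : A.card + B.card = W.card := by
    rw [hA, hB, add_comm]
    exact Finset.card_filter_add_card_filter_not _
  have hAW : ∀ w ∈ A, w ∈ W := fun w hw => (Finset.mem_filter.1 hw).1
  have hBW : ∀ w ∈ B, w ∈ W := fun w hw => (Finset.mem_filter.1 hw).1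
  have hBA : ∀ w ∈ B, w ∉ A := by
    intro w hw h
    exact (Finset.mem_filter.1 h).2 (Finset.mem_filter.1 hw).2
  have hphi : ∀ w, ∃ y, w ∈ A → Twin G W w y := by
    intro w
    by_cases hw : w ∈ A
    · rcases type_or G hc W hmin w (hAW w hw) with h | ⟨y, h⟩
      · exact absurd h (Finset.mem_filter.1 hw).2
      · exact ⟨y, fun _ => h⟩
    · exact ⟨w, fun h => absurd h hw⟩
  choose φ hφ using hphi
  have hxb : ∀ w, ∃ x, w ∈ B → x ∉ W ∧ ∃ x', x' ∉ W ∧ G.Adj x x' ∧
      ∀ w' ∈ W, w' ≠ w → G.dist x w' = G.dist x' w' := by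
    intro w
    by_cases hw : w ∈ B
    · obtain ⟨x, x', h1, h2, h3, h4⟩ := (Finset.mem_filter.1 hw).2
      exact ⟨x, fun _ => ⟨h1, x', h2, h3, h4⟩⟩
    · exact ⟨w, fun h => absurd h hw⟩
  choose xb hxb using hxb
  -- classes
  set cl : V → V → ℕ := fun x w => if w ∈ A then G.dist x w else 0 with hcl
  have hcl_eq : ∀ x x', cl x = cl x' ↔ ∀ w ∈ A, G.dist x w = G.dist x' w := by
    intro x x'
    constructor
    · intro h w hw
      have := congrFun h w
      simp only [hcl, if_pos hw] at this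
      exact this
    · intro h
      funext w
      simp only [hcl]
      by_cases hw : w ∈ A
      · rw [if_pos hw, if_pos hw]; exact h w hw
      · rw [if_neg hw, if_neg hw]
  set I : Finset (V → ℕ) := U.image cl with hI
  set Uk : (V → ℕ) → Finset V := fun κ => U.filter (fun x => cl x = κ) with hUk
  set Ak : (V → ℕ) → Finset V := fun κ => A.filter (fun w => cl (φ w) = κ) with hAk
  set Bk : (V → ℕ) → Finset V := fun κ => B.filter (fun w => cl (xb w) = κ) with hBk
  have sumU : U.card = ∑ κ ∈ I, (Uk κ).card :=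
    Finset.card_eq_sum_card_fiberwise (fun x hx => Finset.mem_coe.2 (Finset.mem_image_of_mem cl hx))
  have sumA : A.card = ∑ κ ∈ I, (Ak κ).card :=
    Finset.card_eq_sum_card_fiberwise (fun w hw => Finset.mem_coe.2 (Finset.mem_image_of_mem cl
      ((hmemU _).2 (hφ w hw).1)))
  have sumB : B.card = ∑ κ ∈ I, (Bk κ).card :=
    Finset.card_eq_sum_card_fiberwise (fun w hw => Finset.mem_coe.2 (Finset.mem_image_of_mem cl
      ((hmemU _).2 (hxb w hw).1)))
  -- clique facts
  have adjA : ∀ κ, ∀ w ∈ Ak κ, ∀ x, cl x = κ → G.Adj x w := by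
    intro κ w hw x hx
    obtain ⟨hwA, hwκ⟩ := Finset.mem_filter.1 hw
    have h1 := (hcl_eq x (φ w)).1 (hx.trans hwκ.symm) w hwA
    rw [SimpleGraph.dist_eq_one_iff_adj.2 (hφ w hwA).2.1] at h1
    exact SimpleGraph.dist_eq_one_iff_adj.1 h1
  have adjAA : ∀ κ, ∀ w ∈ Ak κ, ∀ w' ∈ Ak κ, w ≠ w' → G.Adj w w' := by
    intro κ w hw w' hw' hne
    obtain ⟨hwA, hwκ⟩ := Finset.mem_filter.1 hw
    obtain ⟨hwA', hwκ'⟩ := Finset.mem_filter.1 hw'
    have h1 := adjA κ w' hw' (φ w) hwκ
    have h2 := (hφ w hwA).2.2 w' (hAW w' hwA') hne.symm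
    rw [SimpleGraph.dist_eq_one_iff_adj.2 h1] at h2
    exact SimpleGraph.dist_eq_one_iff_adj.1 h2.symm
  have cardA : ∀ κ ∈ I, (Ak κ).card ≤ m + 1 := by
    intro κ hκ
    obtain ⟨x, hx, hxκ⟩ := Finset.mem_image.1 hκ
    have hxA : x ∉ Ak κ := by
      intro h
      exact (hmemU x).1 hx (hAW x (Finset.mem_filter.1 h).1)
    have := clique_card G (m + 3) hcf (insert x (Ak κ)) (by
      intro a ha b hb hab
      rcases Finset.mem_insert.1 ha with ha1 | ha1
      · rcases Finset.mem_insert.1 hb with hb1 | hb1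
        · exact absurd (ha1.trans hb1.symm) hab
        · rw [ha1]; exact adjA κ b hb1 x hxκ
      · rcases Finset.mem_insert.1 hb with hb1 | hb1
        · rw [hb1]; exact (adjA κ a ha1 x hxκ).symm
        · exact adjAA κ a ha1 b hb1 hab)
    rw [Finset.card_insert_of_notMem hxA] at this
    omega
  have cardAB : ∀ κ ∈ I, (Bk κ).Nonempty → (Ak κ).card ≤ m := by
    intro κ hκ hne
    obtain ⟨b, hb⟩ := hne
    obtain ⟨hbB, hbκ⟩ := Finset.mem_filter.1 hb
    obtain ⟨hx, x', hx', hadj, hd⟩ := hxb b hbB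
    have hclx : cl x' = κ := by
      rw [← hbκ, hcl_eq]
      intro w hw
      exact (hd w (hAW w hw) (fun h => hBA b hbB (h ▸ hw))).symm
    have h1 : x' ∉ Ak κ := fun h => hx' (hAW _ (Finset.mem_filter.1 h).1)
    have h2 : xb b ∉ insert x' (Ak κ) := by
      rw [Finset.mem_insert]
      rintro (h | h)
      · exact hadj.ne h
      · exact hx (hAW _ (Finset.mem_filter.1 h).1)
    have := clique_card G (m + 3) hcf (insert (xb b) (insert x' (Ak κ))) (by
      intro a ha c hc' hac
      simp only [Finset.mem_insert] at ha hc'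
      rcases ha with ha | ha | ha
      · rcases hc' with hc' | hc' | hc'
        · exact absurd (ha.trans hc'.symm) hac
        · rw [ha, hc']; exact hadj
        · rw [ha]; exact adjA κ c hc' _ hbκ
      · rcases hc' with hc' | hc' | hc'
        · rw [ha, hc']; exact hadj.symm
        · exact absurd (ha.trans hc'.symm) hac
        · rw [ha]; exact adjA κ c hc' _ hclx
      · rcases hc' with hc' | hc' | hc'
        · rw [hc']; exact (adjA κ a ha _ hbκ).symm
        · rw [hc']; exact (adjA κ a ha _ hclx).symm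
        · exact adjAA κ a ha c hc' hac)
    rw [Finset.card_insert_of_notMem h2, Finset.card_insert_of_notMem h1] at this
    omega
  have cardB : ∀ κ ∈ I, (Bk κ).card + 1 ≤ (Uk κ).card := by
    intro κ hκ
    obtain ⟨x, hx, hxκ⟩ := Finset.mem_image.1 hκ
    apply bondy (Uk κ) G.dist (Bk κ) ⟨x, Finset.mem_filter.2 ⟨hx, hxκ⟩⟩
    intro b hb
    obtain ⟨hbB, hbκ⟩ := Finset.mem_filter.1 hb
    obtain ⟨hx, x', hx', hadj, hd⟩ := hxb b hbB
    have hclx : cl x' = κ := by
      rw [← hbκ, hcl_eq]
      intro w hw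
      exact (hd w (hAW w hw) (fun h => hBA b hbB (h ▸ hw))).symm
    refine ⟨xb b, Finset.mem_filter.2 ⟨(hmemU _).2 hx, hbκ⟩, x',
      Finset.mem_filter.2 ⟨(hmemU _).2 hx', hclx⟩, ?_, ?_⟩
    · intro h
      obtain ⟨w, hw, hne⟩ := hgood _ _ hadj
      by_cases hwb : w = b
      · rw [hwb] at hne; exact hne h
      · exact hne (hd w hw hwb)
    · intro b' hb' hne
      exact hd b' (hBW b' (Finset.mem_filter.1 hb').1) hne
  -- full and zero classes
  set F : Finset (V → ℕ) := I.filter (fun κ => (Uk κ).card = 1 ∧ (Ak κ).card = m + 1) with hF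
  set Z : Finset (V → ℕ) := I.filter (fun κ => Ak κ = ∅) with hZ
  have hclass : ∀ κ ∈ I, (Ak κ).card + (Bk κ).card + (if Ak κ = ∅ then 1 else 0) ≤
      m * (Uk κ).card + (if (Uk κ).card = 1 ∧ (Ak κ).card = m + 1 then 1 else 0) := by
    intro κ hκ
    have h1 := cardA κ hκ
    have h2 := cardAB κ hκ
    have h3 := cardB κ hκ
    obtain ⟨t, ht⟩ : ∃ t, (Uk κ).card = t + 1 := ⟨(Uk κ).card - 1, by omega⟩
    rw [ht] at h3 ⊢
    have h4 : t ≤ m * t := Nat.le_mul_of_pos_left t hm
    have h5 : m * (t + 1) = m * t + m := by ring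
    rw [h5]
    by_cases hBe : (Bk κ).Nonempty
    · have h6 := h2 hBe
      by_cases hz : Ak κ = ∅
      · rw [if_pos hz, hz, Finset.card_empty]
        split_ifs <;> omega
      · rw [if_neg hz]
        split_ifs <;> omega
    · rw [Finset.not_nonempty_iff_eq_empty] at hBe
      rw [hBe, Finset.card_empty]
      by_cases hz : Ak κ = ∅
      · rw [if_pos hz, hz, Finset.card_empty]
        split_ifs <;> omega
      · rw [if_neg hz]
        by_cases ht0 : t = 0
        · subst ht0
          by_cases h7 : (Ak κ).card = m + 1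
          · rw [if_pos ⟨rfl, h7⟩]; omega
          · rw [if_neg (fun h => h7 h.2)]; omega
        · have : m * 1 ≤ m * t := Nat.mul_le_mul_left m (by omega)
          split_ifs <;> omega
  have hsum := Finset.sum_le_sum hclass
  rw [Finset.sum_add_distrib, Finset.sum_add_distrib, Finset.sum_add_distrib, ← sumA, ← sumB,
    ← Finset.mul_sum, ← sumU, ← Finset.card_filter, ← Finset.card_filter] at hsum
  change A.card + B.card + Z.card ≤ m * U.card + F.card at hsum
  -- every full class has a single outside vertex `y`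
  have hfull : ∀ κ ∈ F, ∃ y, y ∉ W ∧ cl y = κ ∧ (∀ x, x ∉ W → cl x = κ → x = y) ∧
      (∀ w ∈ Ak κ, G.Adj y w ∧ ∀ w' ∈ W, w' ≠ w → G.dist y w' = G.dist w w') := by
    intro κ hκ
    obtain ⟨hκI, hκ1, hκ2⟩ := Finset.mem_filter.1 hκ
    obtain ⟨y, hy⟩ := Finset.card_eq_one.1 hκ1
    have hyU : y ∈ Uk κ := by rw [hy]; exact Finset.mem_singleton_self y
    obtain ⟨hy1, hy2⟩ := Finset.mem_filter.1 hyU
    have huni : ∀ x, x ∉ W → cl x = κ → x = y := by
      intro x hx hxκ
      have : x ∈ Uk κ := Finset.mem_filter.2 ⟨(hmemU x).2 hx, hxκ⟩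
      rw [hy] at this
      exact Finset.mem_singleton.1 this
    refine ⟨y, (hmemU y).1 hy1, hy2, huni, ?_⟩
    intro w hw
    obtain ⟨hwA, hwκ⟩ := Finset.mem_filter.1 hw
    have h1 := huni (φ w) (hφ w hwA).1 hwκ
    rw [← h1]
    exact (hφ w hwA).2
  have hfullIso : ∀ κ ∈ F, Iso G (m + 1) W (Ak κ) := by
    intro κ hκ
    obtain ⟨y, hyW, hyκ, huni, hyA⟩ := hfull κ hκ
    obtain ⟨hκI, hκ1, hκ2⟩ := Finset.mem_filter.1 hκ
    refine ⟨fun w hw => hAW w (Finset.mem_filter.1 hw).1, hκ2, ?_⟩
    intro c hcA w hw hne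
    constructor
    · intro hadj
      by_contra hwA
      have hyw : G.Adj y w := by
        have h1 := (hyA c hcA).2 w hw hne
        rw [SimpleGraph.dist_eq_one_iff_adj.2 hadj] at h1
        exact SimpleGraph.dist_eq_one_iff_adj.1 h1
      have hall : ∀ a ∈ Ak κ, G.Adj a w := by
        intro a ha
        have h1 := (hyA a ha).2 w hw (fun h => hwA (h ▸ ha))
        rw [SimpleGraph.dist_eq_one_iff_adj.2 hyw] at h1
        exact SimpleGraph.dist_eq_one_iff_adj.1 h1.symm
      have h1 : y ∉ Ak κ := fun h => hyW (hAW _ (Finset.mem_filter.1 h).1)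
      have h2 : w ∉ insert y (Ak κ) := by
        rw [Finset.mem_insert]
        rintro (h | h)
        · exact hyW (h ▸ hw)
        · exact hwA h
      have := clique_card G (m + 3) hcf (insert w (insert y (Ak κ))) (by
        intro a ha c hc' hac
        simp only [Finset.mem_insert] at ha hc'
        rcases ha with ha | ha | ha
        · rcases hc' with hc' | hc' | hc'
          · exact absurd (ha.trans hc'.symm) hac
          · rw [ha, hc']; exact hyw.symm
          · rw [ha]; exact (hall c hc').symm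
        · rcases hc' with hc' | hc' | hc'
          · rw [ha, hc']; exact hyw
          · exact absurd (ha.trans hc'.symm) hac
          · rw [ha]; exact (hyA c hc').1
        · rcases hc' with hc' | hc' | hc'
          · rw [hc']; exact hall a ha
          · rw [hc']; exact (hyA a ha).1.symm
          · exact adjAA κ a ha c hc' hac)
      rw [Finset.card_insert_of_notMem h2, Finset.card_insert_of_notMem h1] at this
      omega
    · intro hwA
      exact adjAA κ c hcA w hwA hne.symm
  by_cases hspecial : ∃ κ ∈ F, W ⊆ Ak κ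
  · obtain ⟨κ, hκ, hWA⟩ := hspecial
    obtain ⟨hκI, hκ1, hκ2⟩ := Finset.mem_filter.1 hκ
    have h1 : W.card ≤ m + 1 := by rw [← hκ2]; exact Finset.card_le_card hWA
    have h2 : 2 ≤ U.card := by rw [hUcard]; omega
    have h3 : m * 2 ≤ m * U.card := Nat.mul_le_mul_left m h2
    omega
  · push Not at hspecial
    have hFZ : F.card ≤ Z.card := by
      have hex : ∀ κ, ∃ κ', κ ∈ F → κ' ∈ Z ∧ ∃ z, z ∉ W ∧ cl z = κ' ∧ (∃ w ∈ Ak κ, G.Adj z w) ∧
          ∀ C, Iso G (m + 1) W C → (∃ c ∈ C, G.Adj z c) → C = Ak κ := by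
        intro κ
        by_cases hκ : κ ∈ F
        swap
        · exact ⟨κ, fun h => absurd h hκ⟩
        obtain ⟨y, hyW, hyκ, huni, hyA⟩ := hfull κ hκ
        have hIso := hfullIso κ hκ
        obtain ⟨hκI, hκ1, hκ2⟩ := Finset.mem_filter.1 hκ
        obtain ⟨w0, hw0W, hw0A⟩ := Finset.not_subset.1 (hspecial κ hκ)
        obtain ⟨w, hw⟩ : (Ak κ).Nonempty := Finset.card_pos.1 (by omega)
        have hne0 : w ≠ w0 := fun h => hw0A (h ▸ hw)
        obtain ⟨z, hwz, hzd⟩ := exists_next G hc w w0 hne0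
        have hdist : ∀ a ∈ Ak κ, G.dist a w0 = G.dist w w0 := by
          intro a ha
          rw [← (hyA a ha).2 w0 hw0W (fun h => hw0A (h ▸ ha)),
            ← (hyA w hw).2 w0 hw0W (fun h => hw0A (h ▸ hw))]
        have hzA : z ∉ Ak κ := by
          intro h
          rw [hdist z h] at hzd
          exact lt_irrefl _ hzd
        have hzy : z ≠ y := by
          intro h
          rw [h, (hyA w hw).2 w0 hw0W hne0.symm] at hzd
          exact lt_irrefl _ hzd
        have hwW : w ∈ W := hAW w (Finset.mem_filter.1 hw).1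
        have hwA : w ∈ A := (Finset.mem_filter.1 hw).1
        have hzW : z ∉ W := by
          intro h
          exact hzA ((hIso.2.2 w hw z h hwz.ne').1 hwz)
        refine ⟨cl z, fun _ => ⟨?_, z, hzW, rfl, ⟨w, hw, hwz.symm⟩, ?_⟩⟩
        · rw [hZ, Finset.mem_filter]
          refine ⟨Finset.mem_image_of_mem cl ((hmemU z).2 hzW), ?_⟩
          rw [Finset.eq_empty_iff_forall_notMem]
          intro w1 hw1
          obtain ⟨hw1A, hw1z⟩ := Finset.mem_filter.1 hw1
          have hfin : w1 ∈ Ak κ := by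
            by_cases h11 : w1 = w
            · rw [h11]; exact hw
            · have h1 := (hcl_eq (φ w1) z).1 hw1z w hwA
              rw [SimpleGraph.dist_eq_one_iff_adj.2 hwz.symm] at h1
              have h2 := (hφ w1 hw1A).2.2 w hwW (Ne.symm h11)
              rw [h1] at h2
              have h3 := SimpleGraph.dist_eq_one_iff_adj.1 h2.symm
              exact (hIso.2.2 w hw w1 (hAW w1 hw1A) h11).1 h3.symm
          have h4 : cl z = κ := by
            rw [← hw1z]; exact (Finset.mem_filter.1 hfin).2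
          exact hzy (huni z hzW h4)
        · intro C hC ⟨c, hcC, hzc⟩
          refine swap G hc m hcf W hiso (Ak κ) hIso y hyW ?_ hyA ?_ z hzW hzy w hw hwz.symm
            C hC c hcC hzc
          · intro a ha
            exact (Finset.mem_filter.1 (Finset.mem_filter.1 ha).1).2
          · intro v hv hvy
            by_contra hcon
            push Not at hcon
            apply hvy
            apply huni v hv
            rw [← hyκ, hcl_eq]
            intro a ha
            exact hcon a (hAW a ha)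
      choose g hg using hex
      apply Finset.card_le_card_of_injOn g
      · intro κ hκ
        exact Finset.mem_coe.2 (hg κ (Finset.mem_coe.1 hκ)).1
      · intro κ1 hκ1 κ2 hκ2 hgg
        rw [Finset.mem_coe] at hκ1 hκ2
        obtain ⟨hZ1, z1, hz1W, hz1, -, hu1⟩ := hg κ1 hκ1
        obtain ⟨hZ2, z2, hz2W, hz2, ⟨w2, hw2, hzw2⟩, hu2⟩ := hg κ2 hκ2
        have h1 := (hcl_eq z1 z2).1 (by rw [hz1, hz2, hgg]) w2 (Finset.mem_filter.1 hw2).1
        rw [SimpleGraph.dist_eq_one_iff_adj.2 hzw2] at h1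
        have h2 := hu1 (Ak κ2) (hfullIso κ2 hκ2) ⟨w2, hw2, SimpleGraph.dist_eq_one_iff_adj.1 h1⟩
        have h3 : w2 ∈ Ak κ1 := by rw [← h2]; exact hw2
        exact (Finset.mem_filter.1 h3).2.symm.trans (Finset.mem_filter.1 hw2).2
    omega

end Pool.Agent.J6H51.LocDim
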