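import Pool.Agent.J6H51.LocDim.Basic

set_option autoImplicit false

namespace Pool.Agent.J6H51.LocDim

open Finset

/-- some edge outside `W` is resolved in `W` at most by `w` -/
def TypeB {V : Type} (G : SimpleGraph V) (W : Finset V) (w : V) : Prop :=
  ∃ x x', x ∉ W ∧ x' ∉ W ∧ G.Adj x x' ∧ ∀ w' ∈ W, w' ≠ w → G.dist x w' = G.dist x' w'

/-- `y` is a twin of `w` with respect to `W` -/
def Twin {V : Type} (G : SimpleGraph V) (W : Finset V) (w y : V) : Prop :=
  y ∉ W ∧ G.Adj y w ∧ ∀ w' ∈ W, w' ≠ w → G.dist y w' = G.dist w w'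

theorem type_or {V : Type} [Fintype V] [DecidableEq V] (G : SimpleGraph V) (hc : G.Connected)
    (W : Finset V) (hmin : ∀ W', Good G W' → W.card ≤ W'.card)
    (w : V) (hw : w ∈ W) : TypeB G W w ∨ ∃ y, Twin G W w y := by
  have h1 : ¬ Good G (W.erase w) := by
    intro h
    have := hmin _ h
    have h2 := Finset.card_erase_lt_of_mem hw
    omega
  unfold Good at h1
  push Not at h1
  obtain ⟨u, v, huv, h⟩ := h1
  have key : ∀ u v, G.Adj u v → (∀ w' ∈ W.erase w, G.dist u w' = G.dist v w') → u ∈ W → u = w := by
    intro u v huv h hu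
    by_contra hne
    have := h u (Finset.mem_erase.2 ⟨hne, hu⟩)
    rw [SimpleGraph.dist_self] at this
    have := (hc.dist_eq_zero_iff).1 this.symm
    exact huv.ne this.symm
  by_cases hu : u ∈ W
  · have hu' := key u v huv h hu
    have hv : v ∉ W := by
      intro hv
      have hv' := key v u huv.symm (fun w' hw' => (h w' hw').symm) hv
      exact huv.ne (hu'.trans hv'.symm)
    right
    refine ⟨v, hv, hu' ▸ huv.symm, ?_⟩
    intro w' hw' hne
    rw [← h w' (Finset.mem_erase.2 ⟨hne, hw'⟩), hu']
  · by_cases hv : v ∈ W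
    · have hv' := key v u huv.symm (fun w' hw' => (h w' hw').symm) hv
      right
      refine ⟨u, hu, hv' ▸ huv, ?_⟩
      intro w' hw' hne
      rw [h w' (Finset.mem_erase.2 ⟨hne, hw'⟩), hv']
    · left
      exact ⟨u, v, hu, hv, huv, fun w' hw' hne => h w' (Finset.mem_erase.2 ⟨hne, hw'⟩)⟩

theorem clique_card {V : Type} (G : SimpleGraph V) (n : ℕ) (hcf : G.CliqueFree n) (s : Finset V)
    (hs : ∀ x ∈ s, ∀ y ∈ s, x ≠ y → G.Adj x y) : s.card < n := by
  by_contra h
  push Not at h
  obtain ⟨t, ht, hcard⟩ := Finset.exists_subset_card_eq h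
  refine hcf t ⟨?_, hcard⟩
  intro x hx y hy hxy
  exact hs x (ht hx) y (ht hy) hxy

/-- The swap step. `K` is an isolated `(m+1)`-clique of `W`, completed to a clique by `y`; `z` is a
vertex outside `W` adjacent to `K`. -/
theorem swap {V : Type} [Fintype V] [DecidableEq V] (G : SimpleGraph V) (hc : G.Connected)
    (m : ℕ) (hcf : G.CliqueFree (m + 3)) (W : Finset V)
    (hiso : ∀ W', Good G W' → W'.card = W.card →
        {C | Iso G (m + 1) W C}.ncard ≤ {C | Iso G (m + 1) W' C}.ncard)
    (K : Finset V) (hK : Iso G (m + 1) W K) (y : V) (hy : y ∉ W)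
    (hKB : ∀ w ∈ K, ¬ TypeB G W w)
    (hKy : ∀ w ∈ K, G.Adj y w ∧ ∀ w' ∈ W, w' ≠ w → G.dist y w' = G.dist w w')
    (huniq : ∀ v, v ∉ W → v ≠ y → ∃ w' ∈ W, G.dist v w' ≠ G.dist y w')
    (z : V) (hz : z ∉ W) (hzy : z ≠ y) (w : V) (hw : w ∈ K) (hzw : G.Adj z w)
    (C : Finset V) (hC : Iso G (m + 1) W C) (c : V) (hcC : c ∈ C) (hzc : G.Adj z c) : C = K := by
  by_contra hCK
  obtain ⟨hKW, hKcard, hKadj⟩ := hK
  have hKcl : ∀ a ∈ K, ∀ b ∈ K, a ≠ b → G.Adj a b := by
    intro a ha b hb hab
    exact (hKadj a ha b (hKW hb) hab.symm).2 hb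
  -- choose the vertex to be removed
  obtain ⟨w1, hw1, hw1z⟩ : ∃ w1 ∈ K, G.dist w1 z ≠ G.dist y z := by
    by_cases h : G.Adj z y
    · by_contra hcon
      push Not at hcon
      have hall : ∀ a ∈ K, G.Adj z a := by
        intro a ha
        have h1 := hcon a ha
        rw [SimpleGraph.dist_eq_one_iff_adj.2 h.symm] at h1
        exact (SimpleGraph.dist_eq_one_iff_adj.1 h1).symm
      have hyK : y ∉ K := fun h => hy (hKW h)
      have hzK : z ∉ insert y K := by
        rw [Finset.mem_insert]
        rintro (h | h)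
        · exact hzy h
        · exact hz (hKW h)
      have hcard : (insert z (insert y K)).card = m + 3 := by
        rw [Finset.card_insert_of_notMem hzK, Finset.card_insert_of_notMem hyK, hKcard]
      have := clique_card G (m + 3) hcf (insert z (insert y K)) (by
        intro a ha b hb hab
        simp only [Finset.mem_insert] at ha hb
        rcases ha with rfl | rfl | ha
        · rcases hb with rfl | rfl | hb
          · exact absurd rfl hab
          · exact h
          · exact hall b hb
        · rcases hb with rfl | rfl | hb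
          · exact h.symm
          · exact absurd rfl hab
          · exact (hKy b hb).1
        · rcases hb with rfl | rfl | hb
          · exact (hall a ha).symm
          · exact (hKy a ha).1.symm
          · exact hKcl a ha b hb hab)
      omega
    · refine ⟨w, hw, ?_⟩
      rw [SimpleGraph.dist_eq_one_iff_adj.2 hzw.symm]
      intro h1
      exact h (SimpleGraph.dist_eq_one_iff_adj.1 h1.symm).symm
  have hw1W : w1 ∈ W := hKW hw1
  have hw1ne : w1 ≠ z := fun h => hz (h ▸ hw1W)
  set W1 : Finset V := insert z (W.erase w1) with hW1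
  have hzW1 : z ∈ W1 := Finset.mem_insert_self _ _
  have hmem : ∀ a, a ∈ W → a ≠ w1 → a ∈ W1 := by
    intro a ha hne
    exact Finset.mem_insert_of_mem (Finset.mem_erase.2 ⟨hne, ha⟩)
  have hmem' : ∀ a, a ∈ W1 → a ≠ z → a ∈ W ∧ a ≠ w1 := by
    intro a ha hne
    rcases Finset.mem_insert.1 ha with h | h
    · exact absurd h hne
    · exact ⟨Finset.mem_of_mem_erase h, Finset.ne_of_mem_erase h⟩
  have hw1W1 : w1 ∉ W1 := fun h => (hmem' w1 h hw1ne).2 rfl
  have hcard1 : W1.card = W.card := by
    rw [hW1, Finset.card_insert_of_notMem (fun h => hz (Finset.mem_of_mem_erase h)),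
      Finset.card_erase_of_mem hw1W]
    have := Finset.card_pos.2 ⟨w1, hw1W⟩
    omega
  -- the new set is good
  have hself : ∀ u v, G.Adj u v → u ∈ W1 → ∃ w' ∈ W1, G.dist u w' ≠ G.dist v w' := by
    intro u v huv hu
    refine ⟨u, hu, ?_⟩
    rw [SimpleGraph.dist_self]
    intro h
    exact huv.ne ((hc.dist_eq_zero_iff).1 h.symm).symm
  have hw1v : ∀ v, v ∉ W → G.Adj w1 v → ∃ w' ∈ W1, G.dist w1 w' ≠ G.dist v w' := by
    intro v hv hadj
    by_cases hvy : v = y
    · refine ⟨z, hzW1, ?_⟩
      rw [hvy]; exact hw1z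
    · obtain ⟨w', hw', hne⟩ := huniq v hv hvy
      have hne1 : w' ≠ w1 := by
        intro h
        rw [h, SimpleGraph.dist_eq_one_iff_adj.2 hadj.symm,
          SimpleGraph.dist_eq_one_iff_adj.2 (hKy w1 hw1).1] at hne
        exact hne rfl
      refine ⟨w', hmem w' hw' hne1, ?_⟩
      rw [← (hKy w1 hw1).2 w' hw' hne1]
      exact hne.symm
  have hgood1 : Good G W1 := by
    intro u v huv
    by_cases hu : u ∈ W1
    · exact hself u v huv hu
    by_cases hv : v ∈ W1
    · obtain ⟨w', hw', hne⟩ := hself v u huv.symm hv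
      exact ⟨w', hw', hne.symm⟩
    by_cases hu1 : u = w1
    · have hvW : v ∉ W := by
        intro h
        apply hv
        exact hmem v h (fun h2 => huv.ne (hu1.trans h2.symm))
      rw [hu1]
      exact hw1v v hvW (hu1 ▸ huv)
    by_cases hv1 : v = w1
    · have huW : u ∉ W := by
        intro h
        apply hu
        exact hmem u h hu1
      obtain ⟨w', hw', hne⟩ := hw1v u huW (hv1 ▸ huv.symm)
      refine ⟨w', hw', ?_⟩
      rw [hv1]; exact hne.symm
    have huW : u ∉ W := fun h => hu (hmem u h hu1)
    have hvW : v ∉ W := fun h => hv (hmem v h hv1)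
    have hB := hKB w1 hw1
    unfold TypeB at hB
    push Not at hB
    obtain ⟨w', hw', hne, hd⟩ := hB u v huW hvW huv
    exact ⟨w', hmem w' hw' hne, hd⟩
  have hle := hiso W1 hgood1 hcard1
  -- compare isolated cliques
  set Cz : Finset V := W1.filter (fun a => a = z ∨ a ∈ {b | G.Adj z b}.toFinite.toFinset) with hCz
  have hsub : {C' | Iso G (m + 1) W1 C'} ⊆ insert Cz ({C' | Iso G (m + 1) W C'} \ {K, C}) := by
    intro C' hC'
    obtain ⟨hs, hcd, had⟩ := hC'
    by_cases hzC : z ∈ C'
    · left
      ext a
      simp only [hCz, Finset.mem_filter, Set.Finite.mem_toFinset, Set.mem_setOf_eq]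
      constructor
      · intro ha
        refine ⟨hs ha, ?_⟩
        by_cases haz : a = z
        · left; exact haz
        · right; exact (had z hzC a (hs ha) haz).2 ha
      · rintro ⟨ha, haz | haz⟩
        · rw [haz]; exact hzC
        · exact (had z hzC a ha haz.ne').1 haz
    · right
      have hCW : C' ⊆ W := by
        intro a ha
        exact (hmem' a (hs ha) (fun h => hzC (h ▸ ha))).1
      have hw1C : w1 ∉ C' := fun h => hw1W1 (hs h)
      refine ⟨⟨hCW, hcd, ?_⟩, ?_⟩
      · intro a ha b hb hba
        by_cases hb1 : b = w1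
        · rw [hb1]
          constructor
          · intro hadj
            exfalso
            have haW1 := hs ha
            have haz : a ≠ z := fun h => hzC (h ▸ ha)
            have haK : a ∈ K := (hKadj w1 hw1 a (hCW ha) (fun h => hw1C (h ▸ ha))).1 hadj.symm
            have hEq : C' = K.erase w1 := by
              ext e
              rw [Finset.mem_erase]
              constructor
              · intro he
                refine ⟨fun h => hw1C (h ▸ he), ?_⟩
                by_cases hea : e = a
                · rw [hea]; exact haK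
                · have h1 : G.Adj a e := (had a ha e (hs he) hea).2 he
                  exact (hKadj a haK e (hCW he) hea).1 h1
              · rintro ⟨he1, heK⟩
                by_cases hea : e = a
                · rw [hea]; exact ha
                · have h1 : G.Adj a e := hKcl a haK e heK (Ne.symm hea)
                  exact (had a ha e (hmem e (hKW heK) he1) hea).1 h1
            rw [hEq, Finset.card_erase_of_mem hw1, hKcard] at hcd
            omega
          · intro h
            exact absurd h hw1C
        · exact had a ha b (hmem b hb hb1) hba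
      · intro h
        rcases h with h | h
        · apply hw1C
          rw [h]; exact hw1
        · have h' : C' = C := h
          have hcC' : c ∈ C' := by rw [h']; exact hcC
          have hcz : c ≠ z := fun h2 => hz (h2 ▸ hCW hcC')
          exact hzC ((had c hcC' z hzW1 hcz.symm).1 hzc.symm)
  have hfin : ({C' | Iso G (m + 1) W C'}).Finite := Set.toFinite _
  have h1 : {C' | Iso G (m + 1) W1 C'}.ncard ≤
      (insert Cz ({C' | Iso G (m + 1) W C'} \ {K, C})).ncard :=
    Set.ncard_le_ncard hsub (Set.toFinite _)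
  have h2 := Set.ncard_insert_le Cz ({C' | Iso G (m + 1) W C'} \ {K, C})
  have hKC : ({K, C} : Set (Finset V)) ⊆ {C' | Iso G (m + 1) W C'} := by
    intro a ha
    rcases ha with ha | ha
    · rw [ha]; exact ⟨hKW, hKcard, hKadj⟩
    · have : a = C := ha
      rw [this]; exact hC
  have h3 := Set.ncard_diff hKC (Set.toFinite _)
  have h4 : ({K, C} : Set (Finset V)).ncard = 2 := Set.ncard_pair (Ne.symm hCK)
  have h5 := Set.ncard_le_ncard hKC hfin
  omega

end Pool.Agent.J6H51.LocDim
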